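import Pool.Agent.T2h11.MTQ.Old
import Pool.Agent.T2h11.MTP.Defs
import Pool.Agent.T2h11.MT.T_MTL

/-!
# The Mumford-Tate conjecture for products of hyperkähler varieties: comparison of statements
-/

set_option autoImplicit false

namespace Pool.Agent.T2h11.MTQ

open Module NumberField IsDedekindDomain TensorProduct
open Pool.Agent.W401.Cheb Pool.Agent.N184.HK

section

variable {Ω V W : Type} [NormedField Ω] [AddCommGroup V] [Module Ω V] [AddCommGroup W] [Module Ω W]

/-- conjugation, as a linear map -/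
def cj (f : V ≃ₗ[Ω] W) : Module.End Ω V →ₗ[Ω] Module.End Ω W where
  toFun := conj f
  map_add' A B := LinearMap.ext fun x => by simp [conj]
  map_smul' r A := LinearMap.ext fun x => by simp [conj]

lemma conj_mul (f : V ≃ₗ[Ω] W) (A B : Module.End Ω V) : conj f (A * B) = conj f A * conj f B :=
  LinearMap.ext fun x => by simp [conj]

lemma conj_one (f : V ≃ₗ[Ω] W) : conj f (1 : Module.End Ω V) = 1 :=
  LinearMap.ext fun x => by simp [conj]

lemma conj_pow (f : V ≃ₗ[Ω] W) (A : Module.End Ω V) (n : ℕ) : conj f (A ^ n) = conj f A ^ n := by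
  induction n with
  | zero => rw [pow_zero, pow_zero, conj_one]
  | succ n ih => rw [pow_succ, pow_succ, conj_mul, ih]

lemma conj_symm_conj (f : V ≃ₗ[Ω] W) (A : Module.End Ω V) : conj f.symm (conj f A) = A :=
  LinearMap.ext fun x => by simp [conj]

lemma conj_conj_symm (f : V ≃ₗ[Ω] W) (A : Module.End Ω W) : conj f (conj f.symm A) = A :=
  LinearMap.ext fun x => by simp [conj]

lemma isExp_conj (f : V ≃ₗ[Ω] W) {A g : Module.End Ω V} (h : MT.IsExp A g) :
    MT.IsExp (conj f A) (conj f g) := by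
  intro L
  have h1 := h (L ∘ₗ cj f)
  simp only [LinearMap.comp_apply] at h1
  refine h1.congr_fun ?_
  intro n
  rw [← conj_pow]
  rfl

lemma isExp_conj_iff (f : V ≃ₗ[Ω] W) {A g : Module.End Ω V} :
    MT.IsExp (conj f A) (conj f g) ↔ MT.IsExp A g := by
  refine ⟨fun h => ?_, isExp_conj f⟩
  have h1 := isExp_conj f.symm h
  rwa [conj_symm_conj, conj_symm_conj] at h1

end

section

variable {S : Type} [Fintype S] [DecidableEq S] {A : S → Type} [∀ s, AddCommGroup (A s)]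
  [∀ s, Module ℚ (A s)]

lemma pi_ext_C {P Q : ℂ ⊗[ℚ] (∀ s, A s)}
    (h : ∀ s, (LinearMap.proj s : (∀ s, A s) →ₗ[ℚ] A s).baseChange ℂ P =
      (LinearMap.proj s : (∀ s, A s) →ₗ[ℚ] A s).baseChange ℂ Q) : P = Q := by
  have key : ∀ P : ℂ ⊗[ℚ] (∀ s, A s), P = ∑ s, (LinearMap.single ℚ A s).baseChange ℂ
      ((LinearMap.proj s : (∀ s, A s) →ₗ[ℚ] A s).baseChange ℂ P) := by
    intro P
    induction P with
    | zero => simp
    | tmul z m =>
      simp only [LinearMap.baseChange_tmul, LinearMap.proj_apply]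
      rw [← TensorProduct.tmul_sum]
      congr 1
      exact (LinearMap.sum_single_apply A m).symm
    | add x y hx hy =>
      conv_lhs => rw [hx, hy]
      rw [← Finset.sum_add_distrib]
      exact Finset.sum_congr rfl fun s _ => by rw [map_add, map_add]
  rw [key P, key Q]
  exact Finset.sum_congr rfl fun s _ => by rw [h s]

omit [Fintype S] in
lemma proj_single_C {s t : S} (hst : s ≠ t) (P : ℂ ⊗[ℚ] A t) :
    (LinearMap.proj s : (∀ s, A s) →ₗ[ℚ] A s).baseChange ℂ
      ((LinearMap.single ℚ A t).baseChange ℂ P) = 0 := by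
  rw [← LinearMap.comp_apply, ← LinearMap.baseChange_comp]
  have : (LinearMap.proj s : (∀ s, A s) →ₗ[ℚ] A s) ∘ₗ LinearMap.single ℚ A t = 0 := by
    refine LinearMap.ext fun x => ?_
    simp [hst]
  rw [this, LinearMap.baseChange_zero, LinearMap.zero_apply]

omit [Fintype S] in
lemma proj_single_self_C (s : S) (P : ℂ ⊗[ℚ] A s) :
    (LinearMap.proj s : (∀ s, A s) →ₗ[ℚ] A s).baseChange ℂ
      ((LinearMap.single ℚ A s).baseChange ℂ P) = P := by
  rw [← LinearMap.comp_apply, ← LinearMap.baseChange_comp]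
  have : (LinearMap.proj s : (∀ s, A s) →ₗ[ℚ] A s) ∘ₗ LinearMap.single ℚ A s = LinearMap.id := by
    refine LinearMap.ext fun x => ?_
    simp
  rw [this, LinearMap.baseChange_id, LinearMap.id_apply]

end

section

variable {A B : Type} [AddCommGroup A] [Module ℚ A] [AddCommGroup B] [Module ℚ B]

lemma prod_ext_C {P Q : ℂ ⊗[ℚ] (A × B)}
    (h1 : (LinearMap.fst ℚ A B).baseChange ℂ P = (LinearMap.fst ℚ A B).baseChange ℂ Q)
    (h2 : (LinearMap.snd ℚ A B).baseChange ℂ P = (LinearMap.snd ℚ A B).baseChange ℂ Q) :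
    P = Q := by
  have key : ∀ P : ℂ ⊗[ℚ] (A × B), P =
      (LinearMap.inl ℚ A B).baseChange ℂ ((LinearMap.fst ℚ A B).baseChange ℂ P) +
      (LinearMap.inr ℚ A B).baseChange ℂ ((LinearMap.snd ℚ A B).baseChange ℂ P) := by
    intro P
    induction P with
    | zero => simp
    | tmul z m =>
      simp only [LinearMap.baseChange_tmul, LinearMap.fst_apply, LinearMap.snd_apply]
      rw [← TensorProduct.tmul_add]
      simp
    | add x y hx hy =>
      conv_lhs => rw [hx, hy]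
      rw [map_add, map_add, map_add, map_add]
      abel
  rw [key P, key Q, h1, h2]

variable {C : Type} [AddCommGroup C] [Module ℚ C]

lemma fst_inl_C (f : C →ₗ[ℚ] A) (P : ℂ ⊗[ℚ] C) :
    (LinearMap.fst ℚ A B).baseChange ℂ ((LinearMap.inl ℚ A B ∘ₗ f).baseChange ℂ P) =
      f.baseChange ℂ P := by
  rw [← LinearMap.comp_apply, ← LinearMap.baseChange_comp]
  rfl

lemma fst_inr_C (P : ℂ ⊗[ℚ] B) :
    (LinearMap.fst ℚ A B).baseChange ℂ ((LinearMap.inr ℚ A B).baseChange ℂ P) = 0 := by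
  rw [← LinearMap.comp_apply, ← LinearMap.baseChange_comp, LinearMap.fst_comp_inr,
    LinearMap.baseChange_zero, LinearMap.zero_apply]

lemma snd_inl_C (f : C →ₗ[ℚ] A) (P : ℂ ⊗[ℚ] C) :
    (LinearMap.snd ℚ A B).baseChange ℂ ((LinearMap.inl ℚ A B ∘ₗ f).baseChange ℂ P) = 0 := by
  rw [← LinearMap.comp_apply, ← LinearMap.baseChange_comp, ← LinearMap.comp_assoc,
    LinearMap.snd_comp_inl, LinearMap.zero_comp, LinearMap.baseChange_zero, LinearMap.zero_apply]

lemma snd_inr_C (P : ℂ ⊗[ℚ] B) :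
    (LinearMap.snd ℚ A B).baseChange ℂ ((LinearMap.inr ℚ A B).baseChange ℂ P) = P := by
  rw [← LinearMap.comp_apply, ← LinearMap.baseChange_comp, LinearMap.snd_comp_inr,
    LinearMap.baseChange_id, LinearMap.id_apply]

end

lemma spanQ_iff {Ω R R' : Type} [NormedField Ω] [AddCommGroup R] [Module Ω R] [AddCommGroup R']
    [Module Ω R'] (ℓ : ℕ) [Fact ℓ.Prime] [Algebra ℚ_[ℓ] Ω] (f : R ≃ₗ[Ω] R') (T : Set R) (x : R) :
    x ∈ spanQ (Ω := Ω) ℓ T ↔ f x ∈ spanQ (Ω := Ω) ℓ (f '' T) := by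
  let g : R →ₗ[(algebraMap ℚ_[ℓ] Ω).range] R' :=
    { toFun := f
      map_add' := map_add f
      map_smul' := fun a y => map_smul f (a : Ω) y }
  have e : Submodule.span (algebraMap ℚ_[ℓ] Ω).range (f '' T) =
      (Submodule.span (algebraMap ℚ_[ℓ] Ω).range T).map g := by
    rw [Submodule.map_span]
    rfl
  change x ∈ Submodule.span (algebraMap ℚ_[ℓ] Ω).range T ↔
    f x ∈ Submodule.span (algebraMap ℚ_[ℓ] Ω).range (f '' T)
  rw [e]
  constructor
  · intro h
    exact ⟨x, h, rfl⟩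
  · rintro ⟨y, hy, h⟩
    rw [← f.injective h]
    exact hy

lemma spanQ_C {R : Type} (ℓ : ℕ) [Fact ℓ.Prime] [AddCommGroup R] [Module ℂ_[ℓ] R] (T : Set R) :
    spanQ (Ω := ℂ_[ℓ]) ℓ T = {A | A ∈ Submodule.span (algebraMap ℚ_[ℓ] ℂ_[ℓ]).range T} := rfl

variable {K : Type} [Field K] [NumberField K] {ℓ : ℕ} [Fact ℓ.Prime] {r : ℕ}
  {X : Fin r → HKVariety K ℂ_[ℓ]} (D : ∀ j, Realizations ℓ (X j)) (M : HodgeGalois K ℂ_[ℓ])
  (I : Finset (Fin r × ℕ))

/-- The old form of the data. -/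
noncomputable def oldM (M : HodgeGalois K ℂ_[ℓ]) : MTP.HodgeGalois K ℓ where
  V := M.V
  P := M.P
  Φ := { toFun := M.Φ, map_one' := M.isRepr.1, map_mul' := M.isRepr.2.1 }
  cont := M.isRepr.2.2

/-- The degrees. -/
def deg (j : Fin r) : Finset ℕ := (I.filter fun x => x.1 = j).image Prod.snd

lemma mem_deg {j : Fin r} {i : ℕ} : i ∈ deg I j ↔ (j, i) ∈ I := by
  rw [deg, Finset.mem_image]
  constructor
  · rintro ⟨⟨a, b⟩, h, rfl⟩
    rw [Finset.mem_filter] at h
    obtain ⟨h1, rfl⟩ := h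
    exact h1
  · intro h
    exact ⟨(j, i), Finset.mem_filter.2 ⟨h, rfl⟩, rfl⟩

/-- The endomorphisms: comparison. -/
noncomputable def toL : (∀ s : Option I, EndX ℂ_[ℓ] (sum D M I s).V) ≃ₗ[ℂ_[ℓ]]
    MTP.EndL X (oldM M) (deg I) where
  toFun Z := (fun j i => conj ((D j).comp.iso i) (Z (some ⟨(j, i), (mem_deg I).1 i.2⟩)), Z none)
  map_add' Z Z' := by
    refine Prod.ext ?_ rfl
    funext j i
    exact map_add (cj ((D j).comp.iso i)) _ _
  map_smul' a Z := by
    refine Prod.ext ?_ rfl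
    funext j i
    exact map_smul (cj ((D j).comp.iso i)) _ _
  invFun Z s := match s with
    | none => Z.2
    | some x => conj ((D x.1.1).comp.iso x.1.2).symm (Z.1 x.1.1 ⟨x.1.2, (mem_deg I).2 x.2⟩)
  left_inv Z := by
    funext s
    match s with
    | none => rfl
    | some x => exact conj_symm_conj _ _
  right_inv Z := by
    refine Prod.ext ?_ rfl
    funext j i
    exact conj_conj_symm _ _

/-- The endomorphisms of the rational cohomology: comparison. -/
noncomputable def toB : (∀ s : Option I, Module.End ℚ (sum D M I s).V) →ₗ[ℚ]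
    MTP.EndB (fun j => old (D j)) (oldM M) (deg I) where
  toFun Z := (fun j i => Z (some ⟨(j, i), (mem_deg I).1 i.2⟩), Z none)
  map_add' Z Z' := rfl
  map_smul' a Z := rfl

lemma mem_lie (Z : ∀ s : Option I, EndX ℂ_[ℓ] (sum D M I s).V) :
    Z ∈ lieAlg ℓ (Set.range fun σ s => (sum D M I s).Φ σ) ↔
      toL D M I Z ∈ MTP.lieImage X (oldM M) (deg I) := by
  refine exists_congr fun n₀ => forall_congr' fun n => imp_congr_right fun _ => ?_
  constructor
  · rintro ⟨_, ⟨σ, rfl⟩, h⟩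
    refine ⟨σ, fun j i => ?_, h none⟩
    have h1 := isExp_conj ((D j).comp.iso i) (h (some ⟨(j, i), (mem_deg I).1 i.2⟩))
    have h2 : conj ((D j).comp.iso i) ((ℓ : ℂ_[ℓ]) ^ n • Z (some ⟨(j, i), (mem_deg I).1 i.2⟩)) =
        (ℓ : ℂ_[ℓ]) ^ n • (toL D M I Z).1 j i := map_smul (cj ((D j).comp.iso i)) _ _
    have h3 : conj ((D j).comp.iso i) ((sum D M I (some ⟨(j, i), (mem_deg I).1 i.2⟩)).Φ σ) =
        (X j).E.Φ σ i := conj_conj_symm _ _
    rw [h2, h3] at h1
    exact h1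
  · rintro ⟨σ, h, hM⟩
    refine ⟨_, ⟨σ, rfl⟩, fun s => ?_⟩
    match s with
    | none => exact hM
    | some x =>
      obtain ⟨⟨j, i⟩, hx⟩ := x
      have h1 := h j ⟨i, (mem_deg I).2 hx⟩
      refine (isExp_conj_iff ((D j).comp.iso i)).1 ?_
      have h2 : conj ((D j).comp.iso i) ((ℓ : ℂ_[ℓ]) ^ n • Z (some ⟨(j, i), hx⟩)) =
          (ℓ : ℂ_[ℓ]) ^ n • (toL D M I Z).1 j ⟨i, (mem_deg I).2 hx⟩ :=
        map_smul (cj ((D j).comp.iso i)) _ _
      have h3 : conj ((D j).comp.iso i) ((sum D M I (some ⟨(j, i), hx⟩)).Φ σ) =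
          (X j).E.Φ σ i := conj_conj_symm _ _
      change MT.IsExp (conj ((D j).comp.iso i) ((ℓ : ℂ_[ℓ]) ^ n • Z (some ⟨(j, i), hx⟩)))
        (conj ((D j).comp.iso i) ((sum D M I (some ⟨(j, i), hx⟩)).Φ σ))
      rw [h2, h3]
      exact h1


lemma toB_inj : Function.Injective (toB D M I) := by
  intro Z Z' h
  funext s
  match s with
  | none => exact congrArg Prod.snd h
  | some x => exact congrFun (congrFun (congrArg Prod.fst h) x.1.1) ⟨x.1.2, (mem_deg I).2 x.2⟩

lemma hodge_fst (j : Fin r) (i : deg I j) :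
    (LinearMap.proj i : (∀ i : deg I j, Module.End ℚ ((old (D j)).B.H i)) →ₗ[ℚ] _).baseChange ℂ
      ((LinearMap.proj j : (∀ j, ∀ i : deg I j, Module.End ℚ ((old (D j)).B.H i)) →ₗ[ℚ]
        _).baseChange ℂ ((LinearMap.fst ℚ _ _).baseChange ℂ
          (MTP.hodge (fun j => old (D j)) (oldM M) (deg I)))) =
      actC ((D j).B.ρ i) (D j).hodge.J ((i : ℕ) / 2) := by
  rw [MTP.hodge, map_add, map_sum, fst_inr_C, add_zero]
  simp only [fst_inl_C]
  rw [map_sum, Finset.sum_eq_single j]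
  · rw [proj_single_self_C (A := fun j => ∀ i : deg I j, Module.End ℚ ((old (D j)).B.H i)) j,
      MT.Realizations.hodge, map_add, ← LinearMap.comp_apply, ← LinearMap.baseChange_comp,
      LinearMap.baseChange_tmul]
    rfl
  · intro t _ htj
    exact proj_single_C (A := fun j => ∀ i : deg I j, Module.End ℚ ((old (D j)).B.H i))
      (Ne.symm htj) _
  · intro h
    exact absurd (Finset.mem_univ j) h

lemma hodge_snd : (LinearMap.snd ℚ _ _).baseChange ℂ
    (MTP.hodge (fun j => old (D j)) (oldM M) (deg I)) = M.P := by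
  rw [MTP.hodge, map_add, map_sum, snd_inr_C]
  simp only [snd_inl_C]
  rw [Finset.sum_const_zero, zero_add]
  rfl

lemma proj_sumC (s : Option I) : (LinearMap.proj s :
      (∀ s : Option I, Module.End ℚ (sum D M I s).V) →ₗ[ℚ] _).baseChange ℂ
        (sumC fun s => (sum D M I s).P) = (sum D M I s).P := by
  rw [sumC, map_sum, Finset.sum_eq_single s]
  · exact proj_single_self_C s _
  · intro t _ hts
    exact proj_single_C (Ne.symm hts) _
  · intro h
    exact absurd (Finset.mem_univ s) h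

lemma toB_hodge : (toB D M I).baseChange ℂ (sumC fun s => (sum D M I s).P) =
    MTP.hodge (fun j => old (D j)) (oldM M) (deg I) := by
  apply prod_ext_C
  · apply pi_ext_C
    intro j
    apply pi_ext_C
    intro i
    rw [hodge_fst]
    rw [← LinearMap.comp_apply, ← LinearMap.comp_apply, ← LinearMap.comp_apply,
      ← LinearMap.baseChange_comp, ← LinearMap.baseChange_comp, ← LinearMap.baseChange_comp]
    exact proj_sumC D M I (some ⟨(j, (i : ℕ)), (mem_deg I).1 i.2⟩)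
  · rw [hodge_snd, ← LinearMap.comp_apply, ← LinearMap.baseChange_comp]
    exact proj_sumC D M I none

lemma mem_mt (Z : ∀ s : Option I, EndX ℂ_[ℓ] (sum D M I s).V) :
    Z ∈ spanQ (Ω := ℂ_[ℓ]) ℓ (mtAlg ℂ_[ℓ] fun s => (sum D M I s).P) ↔
      toL D M I Z ∈ Submodule.span (algebraMap ℚ_[ℓ] ℂ_[ℓ]).range
        (MTP.ext (fun j => old (D j)) (oldM M) (deg I) ''
          (MT.mtLie (MTP.hodge (fun j => old (D j)) (oldM M) (deg I)) : Set _)) := by
  have h1 : MT.mtLie (MTP.hodge (fun j => old (D j)) (oldM M) (deg I)) =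
      (MT.mtLie (sumC fun s => (sum D M I s).P)).map (toB D M I) := by
    rw [← toB_hodge]
    exact MT.MTL.mtLie_map (fun A B => A * B - B * A) _ _ fun A B => rfl
  have h2 : MTP.ext (fun j => old (D j)) (oldM M) (deg I) ''
      (MT.mtLie (MTP.hodge (fun j => old (D j)) (oldM M) (deg I)) : Set _) =
      toL D M I '' (mtAlg ℂ_[ℓ] fun s => (sum D M I s).P) := by
    rw [h1]
    ext Z
    constructor
    · rintro ⟨_, ⟨a, ha, rfl⟩, rfl⟩
      exact ⟨_, ⟨a, ha, rfl⟩, rfl⟩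
    · rintro ⟨_, ⟨a, ha, rfl⟩, rfl⟩
      exact ⟨_, ⟨a, ha, rfl⟩, rfl⟩
  rw [h2]
  have h3 := spanQ_iff (Ω := ℂ_[ℓ]) (R := ∀ s : Option I, EndX ℂ_[ℓ] (sum D M I s).V)
    (R' := MTP.EndL X (oldM M) (deg I)) ℓ (toL D M I) (mtAlg ℂ_[ℓ] fun s => (sum D M I s).P) Z
  rw [spanQ_C (R := MTP.EndL X (oldM M) (deg I))] at h3
  exact h3

end Pool.Agent.T2h11.MTQ
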