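import Pool.Agent.T2h11.MT.Defs

/-!
# The Mumford-Tate conjecture for products of hyperkähler varieties: definitions
-/

set_option autoImplicit false

namespace Pool.Agent.T2h11.MTQ

open Module NumberField IsDedekindDomain TensorProduct
open Pool.Agent.W401.Cheb Pool.Agent.N184.HK Pool.Agent.T2h11.MT

/-! ## Linear algebra -/

section

variable (Ω V W : Type) [Field Ω] [CharZero Ω] [AddCommGroup V] [Module ℚ V] [AddCommGroup W]
  [Module Ω W]

/-- The endomorphisms of `Ω ⊗ V`. -/
abbrev EndX : Type := Module.End Ω (Ω ⊗[ℚ] V)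

/-- The isomorphisms of `Ω ⊗ V` with `W`. -/
abbrev Cmp : Type := (Ω ⊗[ℚ] V) ≃ₗ[Ω] W

/-- The rational vector space `V`, with coefficients extended to `ℂ`. -/
abbrev CC : Type := ℂ ⊗[ℚ] V

/-- The endomorphisms of `V`, with coefficients extended to `ℂ`. -/
abbrev EndC : Type := CC (Module.End ℚ V)

end

section

variable {V W : Type} [AddCommGroup V] [Module ℚ V] [AddCommGroup W] [Module ℚ W]

/-- `J` is in `ℂ ⊗ L`. -/
def InC (L : Submodule ℚ V) (J : CC V) : Prop := J ∈ L.baseChange ℂ

/-- `J` is in `ℂ ⊗ so(V, q)`. -/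
def SkewC (q : LinearMap.BilinForm ℚ V) (J : EndC V) : Prop := InC (so q) J

/-- The image of `J` under the extension of scalars of `f`. -/
noncomputable def mapC (f : V →ₗ[ℚ] W) (J : CC V) : CC W := f.baseChange ℂ J

/-- The sum of `J` and an element of `V`. -/
noncomputable def addC (J : CC V) (a : V) : CC V := J + 1 ⊗ₜ a

/-- The operator `ρ J + t`. -/
noncomputable def actC (ρ : Act ℚ V W) (J : EndC V) (t : ℚ) : EndC W :=
  addC (mapC ρ J) (t • 1)

end

section

variable {Ω V W : Type} [Field Ω] [AddCommGroup V] [Module Ω V] [AddCommGroup W] [Module Ω W]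

/-- The sum of `A` and a scalar. -/
def shift (A : Module.End Ω V) (t : Ω) : Module.End Ω V := A + t • (1 : Module.End Ω V)

/-- The endomorphism of `W` which corresponds to the endomorphism `A` of `V`. -/
def conj (f : V ≃ₗ[Ω] W) (A : Module.End Ω V) : Module.End Ω W :=
  f.toLinearMap ∘ₗ A ∘ₗ f.symm.toLinearMap

end

section

variable {Ω V W V' W' : Type} [Field Ω] [CharZero Ω] [AddCommGroup V] [Module ℚ V]
  [AddCommGroup W] [Module Ω W] [AddCommGroup V'] [Module ℚ V'] [AddCommGroup W'] [Module Ω W']

/-- The extension of scalars of an endomorphism. -/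
def up (Ω : Type) [Field Ω] [CharZero Ω] (A : Module.End ℚ V) : EndX Ω V := A.baseChange Ω

/-- The image of an element of `V`. -/
def im (f : Cmp Ω V W) (x : V) : W := f (1 ⊗ₜ x)

/-- The endomorphism of `W` which corresponds to the endomorphism `A` of `V`. -/
def push (f : Cmp Ω V W) (A : Module.End ℚ V) : Module.End Ω W := conj f (up Ω A)

/-- The endomorphism of `Ω ⊗ V` which corresponds to the endomorphism `g` of `W`. -/
def pull (f : Cmp Ω V W) (g : Module.End Ω W) : EndX Ω V := conj f.symm g

/-- All rational endomorphisms which commute with `S` commute with `g`. -/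
def Generates (f : Cmp Ω V W) (S g : Module.End Ω W) : Prop :=
  ∀ a : Module.End ℚ V, Commute (push f a) S → Commute (push f a) g

/-- `f` respects the forms. -/
def RespectsForm (q : LinearMap.BilinForm ℚ V) (q' : LinearMap.BilinForm Ω W) (f : Cmp Ω V W) :
    Prop :=
  ∀ x y, q' (im f x) (im f y) = (q x y : Ω)

/-- `f` and `f'` respect the actions. -/
def RespectsAct (ρ : Act ℚ V V') (ρ' : Act Ω W W') (f : Cmp Ω V W) (f' : Cmp Ω V' W') : Prop :=
  ∀ A x, im f' (ρ A x) = ρ' (push f A) (im f' x)

/-- A comparison isomorphism between two Weil cohomologies with coefficients `ℚ` and `Ω`: it respects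
the form `q` and the action of `so(H²)`. -/
structure Comparison {d : ℕ} {c : ℚ} (B : Cohomology ℚ d c) (Y : Cohomology Ω d c) where
  iso : ∀ i, Cmp Ω (B.H i) (Y.H i)
  form : RespectsForm B.q Y.q (iso 2)
  act : ∀ i, RespectsAct (B.ρ i) (Y.ρ i) (iso 2) (iso i)

/-- For an element `J` of `so(H²)`, all rational endomorphisms of the `H^i` which commute with the
operators `ρ i J + i / 2` commute with `g i`. -/
def Comparison.Sen {d : ℕ} {c : ℚ} {B : Cohomology ℚ d c} {Y : Cohomology Ω d c}
    (f : Comparison B Y) (g : ∀ i, Module.End Ω (Y.H i)) : Prop :=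
  ∃ J, Skew Y.q J ∧ ∀ i ≤ d, Generates (f.iso i) (shift (Y.ρ i J) (i / 2)) (g i)

end

/-- An element `J` of `ℂ ⊗ so(H²)`. -/
structure HodgeOp {d : ℕ} {c : ℚ} (B : Cohomology ℚ d c) where
  J : EndC (B.H 2)
  skew : SkewC B.q J

/-! ## The hyperkähler varieties -/

section

variable {Ω : Type} [NormedField Ω]

/-- The endomorphisms `g i` of the `H i` are the exponentials of the `t • N i`, for some `t`. -/
def ExpLine {H : ℕ → Type} [∀ i, AddCommGroup (H i)] [∀ i, Module Ω (H i)] (d : ℕ)
    (N g : ∀ i, Module.End Ω (H i)) : Prop :=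
  ∃ t : Ω, ∀ i ≤ d, IsExp (t • N i) (g i)

/-- The `g i` are the exponentials of the action of an element `A + t` of `so(H²) ⊕ Ω`, which acts on
`H^i` as `ρ i A + i t / 2`. -/
def IsExpSo {d : ℕ} {c : ℚ} (Y : Cohomology Ω d c) (g : ∀ i, Module.End Ω (Y.H i)) : Prop :=
  ∃ A t, Skew Y.q A ∧ ∀ i ≤ d, IsExp (shift (Y.ρ i A) (i / 2 * t)) (g i)

end

variable {K : Type} [Field K] [NumberField K]

/-- The property `p` holds for an open subgroup. -/
def ForOpen (p : GK K → Prop) : Prop := ∃ U : Subgroup (GK K), IsOpen (U : Set (GK K)) ∧ ∀ τ ∈ U, p τ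

/-- The property `p` holds for the elements of the inertia groups at `u` which are in an open
subgroup. -/
def ForInertia (u : HeightOneSpectrum (𝓞 K)) (p : GK K → Prop) : Prop :=
  ForOpen fun τ => IsInert u τ → p τ

section

variable {Ω : Type} [NormedField Ω] [CharZero Ω]

/-- `g` is the exponential of a multiple of the logarithm of a monodromy operator at `u`. -/
def IsExpMonodromy (X : HKVariety K Ω) (u : HeightOneSpectrum (𝓞 K)) (τ : GK K) : Prop :=
  ∃ L : LocalMonodromy X u, ExpLine X.d L.data.N (X.E.Φ τ)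

/-- The Betti cohomology of the hyperkähler variety `X` over the number field `K`, for an embedding
of the algebraic closure of `K` in `ℂ`, and known facts on the `ℓ`-adic cohomology; the coefficients
are extended to `Ω = ℂ_ℓ`.

`comp` is the comparison isomorphism (Artin); it respects the form `q` and the action of `so(H²)`.
`hodge` is the semisimple element of `ℂ ⊗ so(H²(X, ℚ))` which gives the Hodge decomposition: it acts
on `H^{p,q}(X)` as `(p - q) / 2`, for all `p` and `q` (Verbitsky).

`monodromy`: at a place which does not divide `ℓ` an open subgroup of an inertia group acts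
through the exponentials of the multiples of the logarithm `N` of the monodromy (Grothendieck).
`sen`: let `u` divide `ℓ`. An inertia group `I` at `u` has a Hodge-Tate operator, which acts on `H^i` as
`ρ i J + i / 2`, for an element `J` of `so(H²)` (Faltings; it is the grading of the Hodge cohomology,
as for the complex numbers), and the Lie algebra of the image of `I` is the smallest `ℚ_ℓ`-subspace
the scalar extension of which contains the Hodge-Tate operator (Sen). So there is an open subgroup
`U` such that the elements of `I ∩ U` commute with all the endomorphisms of the rational cohomology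
which commute with the Hodge-Tate operator. -/
structure Realizations (ℓ : ℕ) (X : HKVariety K Ω) where
  B : Cohomology ℚ X.d X.c
  comp : Comparison B X.E.X
  hodge : HodgeOp B
  monodromy : ∀ u : HeightOneSpectrum (𝓞 K), (ℓ : 𝓞 K) ∉ u.asIdeal →
    ForInertia u (IsExpMonodromy X u)
  sen : ∀ u : HeightOneSpectrum (𝓞 K), (ℓ : 𝓞 K) ∈ u.asIdeal →
    ForInertia u fun τ => comp.Sen (X.E.Φ τ)

/-- `Φ` is a continuous representation of the Galois group. -/
def IsRepr {V : Type} [AddCommGroup V] [Module ℚ V] (Φ : GK K → EndX Ω V) : Prop :=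
  Φ 1 = 1 ∧ (∀ σ τ, Φ (σ * τ) = Φ σ * Φ τ) ∧ Cts Φ

/-- A Hodge structure and a continuous representation of the absolute Galois group of `K` on the same
rational vector space `V`, for example the cohomology of a smooth projective variety over `K`: the
operator `P` acts as `p` on `V^{p,q}`, and the Galois group acts on `Ω ⊗ V`. -/
structure HodgeGalois (K : Type) [Field K] [NumberField K] (Ω : Type) [NormedField Ω]
    [CharZero Ω] where
  V : Type
  [grp : AddCommGroup V]
  [mod : Module ℚ V]
  [fin : FiniteDimensional ℚ V]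
  P : EndC V
  Φ : GK K → EndX Ω V
  isRepr : IsRepr Φ

attribute [instance] HodgeGalois.grp HodgeGalois.mod HodgeGalois.fin

lemma coh_isRepr {ℓ : ℕ} {X : HKVariety K Ω} (D : Realizations ℓ X) (i : ℕ) :
    IsRepr fun σ => pull (D.comp.iso i) (X.E.Φ σ i) := by
  refine ⟨?_, fun σ τ => ?_, fun L => ?_⟩
  · have h : X.E.Φ 1 i = 1 := LinearMap.ext fun x => by
      have h1 := X.E.mul 1 1 i
      rw [one_mul] at h1
      exact ((X.E.F 1).φ i).injective (congrArg (fun f => f x) h1).symm
    beta_reduce
    rw [h]
    refine LinearMap.ext fun x => ?_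
    simp [pull, conj]
  · have h : X.E.Φ (σ * τ) i = X.E.Φ σ i * X.E.Φ τ i := by
      refine LinearMap.ext fun x => ?_
      change (X.E.F (σ * τ)).φ i x = (X.E.F σ).φ i ((X.E.F τ).φ i x)
      rw [X.E.mul σ τ i]
      rfl
    beta_reduce
    rw [h]
    refine LinearMap.ext fun x => ?_
    simp [pull, conj]
  · exact X.E.cont i (L ∘ₗ
      { toFun := fun A => pull (D.comp.iso i) A
        map_add' := fun A B => LinearMap.ext fun x => by simp [pull, conj]
        map_smul' := fun r A => LinearMap.ext fun x => by simp [pull, conj] })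

/-- The cohomology `H^i(X)`: the Hodge structure, and the action of the Galois group. -/
noncomputable def Realizations.coh {ℓ : ℕ} {X : HKVariety K Ω} (D : Realizations ℓ X) (i : ℕ) :
    HodgeGalois K Ω where
  V := D.B.H i
  P := actC (D.B.ρ i) D.hodge.J (i / 2)
  Φ σ := pull (D.comp.iso i) (X.E.Φ σ i)
  isRepr := coh_isRepr D i

end

/-! ## The Mumford-Tate conjecture -/

section

variable {Ω S : Type} [NormedField Ω] {V : S → Type} [∀ s, AddCommGroup (V s)]
  [∀ s, Module Ω (V s)]

/-- The Lie algebra of the subgroup `G` of the automorphisms of the sum of the `V s`, as an `ℓ`-adic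
Lie group: the `A` with `exp (ℓ ^ n A)` in `G` for all large `n`. -/
def lieAlg (ℓ : ℕ) (G : Set (∀ s, Module.End Ω (V s))) : Set (∀ s, Module.End Ω (V s)) :=
  {A | ∃ n₀, ∀ n ≥ n₀, ∃ g ∈ G, ∀ s, IsExp ((ℓ : Ω) ^ n • A s) (g s)}

end

/-- The span over `ℚ_ℓ`. -/
def spanQ {Ω R : Type} [NormedField Ω] [AddCommGroup R] [Module Ω R] (ℓ : ℕ) [Fact ℓ.Prime]
    [Algebra ℚ_[ℓ] Ω] (T : Set R) : Set R :=
  {A | A ∈ Submodule.span (algebraMap ℚ_[ℓ] Ω).range T}

section

variable {S : Type} {V : S → Type} [∀ s, AddCommGroup (V s)] [∀ s, Module ℚ (V s)]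

/-- The sum of the operators `P s`. -/
noncomputable def sumC [Fintype S] [DecidableEq S] (P : ∀ s, EndC (V s)) :
    CC (∀ s, Module.End ℚ (V s)) :=
  ∑ s, mapC (LinearMap.single ℚ (fun s => Module.End ℚ (V s)) s) (P s)

/-- The Lie algebra of the Mumford-Tate group of the sum of the Hodge structures `V s`, where `P s`
acts as `p` on `(V s)^{p,q}`, with coefficients extended to `Ω`. -/
noncomputable def mtAlg [Fintype S] [DecidableEq S] (Ω : Type) [Field Ω] [CharZero Ω]
    (P : ∀ s, EndC (V s)) : Set (∀ s, EndX Ω (V s)) :=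
  (fun a s => up Ω (a s)) '' (mtLie (sumC P) : Set (∀ s, Module.End ℚ (V s)))

end

variable {Ω : Type} [NormedField Ω] [CharZero Ω]

/-- The Mumford-Tate conjecture for the sum of the `H s`: the Lie algebra of the image of the Galois
group is the `ℚ_ℓ`-span of the Lie algebra of the Mumford-Tate group. -/
def MumfordTate {S : Type} [Fintype S] [DecidableEq S] (H : S → HodgeGalois K Ω) (ℓ : ℕ)
    [Fact ℓ.Prime] [Algebra ℚ_[ℓ] Ω] : Prop :=
  lieAlg ℓ (Set.range fun σ s => (H s).Φ σ) = spanQ (Ω := Ω) ℓ (mtAlg Ω fun s => (H s).P)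

/-- The cohomologies `H^i(X j)` for `(j, i)` in `I`, and `M`. -/
noncomputable def sum {ℓ r : ℕ} {X : Fin r → HKVariety K Ω} (D : ∀ j, Realizations ℓ (X j))
    (M : HodgeGalois K Ω) (I : Finset (Fin r × ℕ)) (s : Option I) : HodgeGalois K Ω :=
  s.elim M fun x => (D x.1.1).coh x.1.2

end Pool.Agent.T2h11.MTQ
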