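import Pool.Agent.T2h11.MTQ.Br
import Pool.Agent.T2h11.MTP.All
import Pool.Agent.T2h11.MTP.T_FINP

/-!
# The Mumford-Tate conjecture for products of hyperkähler varieties: the conclusion
-/

set_option autoImplicit false

namespace Pool.Agent.T2h11.MTQ

open Module NumberField IsDedekindDomain TensorProduct
open Pool.Agent.W401.Cheb Pool.Agent.N184.HK

variable {K : Type} [Field K] [NumberField K] {ℓ : ℕ} [Fact ℓ.Prime] {r : ℕ}
  {X : Fin r → HKVariety K ℂ_[ℓ]} (D : ∀ j, Realizations ℓ (X j)) (M : HodgeGalois K ℂ_[ℓ])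
  (I : Finset (Fin r × ℕ))

theorem mt_iff : MumfordTate (sum D M I) ℓ ↔
    MTP.MumfordTate (fun j => old (D j)) (oldM M) (deg I) := by
  constructor
  · intro h
    apply Set.ext
    intro Z'
    obtain ⟨Z, rfl⟩ := (toL D M I).surjective Z'
    rw [← mem_lie]
    refine Iff.trans ?_ (mem_mt D M I Z)
    rw [← h]
  · intro h
    apply Set.ext
    intro Z
    rw [mem_lie, mem_mt, h]
    rfl

theorem mt_all (hI : ∀ x ∈ I, x.2 ≤ (X x.1).d)
    (h : MumfordTate (sum D M (Finset.univ ×ˢ {2})) ℓ) : MumfordTate (sum D M I) ℓ := by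
  rw [mt_iff] at h ⊢
  have e : deg (Finset.univ ×ˢ {2} : Finset (Fin r × ℕ)) = fun _ => {2} := by
    funext j
    ext i
    rw [mem_deg]
    simp [eq_comm]
  rw [e] at h
  exact MTP.FINP.t_FINP MTP.s_LIEP MTP.MTLP.t_MTLP K ℓ r X (fun j => old (D j)) (oldM M) (deg I)
    (fun j i hi => hI (j, i) ((mem_deg I).1 hi)) h

include D in
theorem acts_all : ForOpen fun σ : GK K => ∀ j, IsExpSo (X j).E.X ((X j).E.Φ σ) := by
  choose U hU h using fun j => MTP.acts (X j) (old (D j))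
  refine ⟨⨅ j, U j, ?_, fun σ hσ j => h j σ (Subgroup.mem_iInf.1 hσ j)⟩
  rw [Subgroup.coe_iInf]
  exact isOpen_iInter_of_finite hU

end Pool.Agent.T2h11.MTQ
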