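import Pool.Agent.T2h11.MTQ.Defs
import Pool.Agent.T2h11.WY.T_WYA
import Pool.Agent.T2h11.WY.T_WYB
import Pool.Agent.T2h11.WY.T_WYC
import Pool.Agent.T2h11.WY.T_WYD

/-!
# The Mumford-Tate conjecture for products of hyperkähler varieties: comparison of definitions
-/

set_option autoImplicit false

namespace Pool.Agent.T2h11.MTQ

open Module NumberField IsDedekindDomain TensorProduct
open Pool.Agent.W401.Cheb Pool.Agent.N184.HK

/-- Weyl's theorem for the cohomology. -/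
theorem weyl {Ω : Type} [Field Ω] [CharZero Ω] [IsAlgClosed Ω] {d : ℕ} {c : ℚ}
    (Y : Cohomology Ω d c) (i : ℕ) (W : Submodule Ω (Y.H i))
    (hW : ∀ A, Skew Y.q A → ∀ x ∈ W, Y.ρ i A x ∈ W) :
    ∃ W' : Submodule Ω (Y.H i), (∀ A, Skew Y.q A → ∀ x ∈ W', Y.ρ i A x ∈ W') ∧ IsCompl W W' := by
  obtain ⟨U, h1, h2⟩ := WY.WYD.t_WYD WY.WYA.t_WYA WY.WYB.t_WYB WY.WYC.t_WYC Ω (Y.H 2) (Y.H i) Y.q
    Y.symm Y.nondeg Y.dim3 ((Y.ρ i).comp (WY.sk Y.q).subtype)
    (fun A B => Y.bracket i A.1 B.1 A.2 B.2) W (fun A x hx => hW A.1 A.2 x hx)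
  exact ⟨U, fun A hA x hx => h1 ⟨A, hA⟩ x hx, h2⟩

variable {K : Type} [Field K] [NumberField K] {ℓ : ℕ} [Fact ℓ.Prime] {X : HKVariety K ℂ_[ℓ]}

/-- The old form of the data. -/
noncomputable def old (D : Realizations ℓ X) : MT.Realizations X where
  B := D.B
  comp := D.comp.iso
  form x y := by
    have h := D.comp.form x y
    rw [eq_ratCast]
    exact h
  act i A x := D.comp.act i A x
  J := D.hodge.J
  skew := D.hodge.skew
  semisimple i _ W hW := weyl X.E.X i W hW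
  monodromy u hu := by
    obtain ⟨U, hU, h⟩ := D.monodromy u hu
    refine ⟨U, hU, fun τ hτ hI => ?_⟩
    obtain ⟨L, t, ht⟩ := h τ hτ hI
    exact ⟨L, t, ht⟩
  sen u hu := by
    obtain ⟨U, hU, h⟩ := D.sen u hu
    refine ⟨U, hU, fun τ hτ hI => ?_⟩
    obtain ⟨J, hJ, h1⟩ := h τ hτ hI
    exact ⟨J, hJ, fun i hi a ha => h1 i hi a ha⟩

end Pool.Agent.T2h11.MTQ
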